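import Pool.Agent.H12.QU

/-!
# At every scale at least five of the nine numbers are far from the algebraic numbers

Quantitative form of the statement that at least five of the nine numbers are transcendental: for every `D` there is a
`C` such that for every `H ≥ 3` at least five of the nine numbers
`π + e`, `π - e`, `π e`, `π / e`, `π ^ π`, `e ^ e`, `π ^ e`, `π ^ √2`, `e ^ (π ^ 2)` have no algebraic
number of degree at most `D` and height at most `H` at distance at most `exp (-C (log H) ^ 26)`.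
-/

set_option autoImplicit false

namespace Pool.Agent.Results.MP_a2f59b_nt.FiveAtEveryScale

open Polynomial

/-- `α` is an algebraic number of degree at most `D` and height at most `H`: a root of a nonzero
integer polynomial of degree at most `D` with coefficients of absolute value at most `H`. -/
def IsAlg (D H : ℕ) (α : ℂ) : Prop :=
  ∃ P : ℤ[X], P ≠ 0 ∧ P.natDegree ≤ D ∧ (∀ i, |P.coeff i| ≤ (H : ℤ)) ∧ aeval α P = 0

/-- the number `e` -/
noncomputable def e : ℝ := Real.exp 1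

/-- the nine numbers of the problem -/
noncomputable def nine : Fin 9 → ℝ :=
  ![Real.pi + e, Real.pi - e, Real.pi * e, Real.pi / e, Real.pi ^ Real.pi, e ^ e, Real.pi ^ e,
    Real.pi ^ Real.sqrt 2, e ^ (Real.pi ^ 2)]

/-- the indices of the numbers which are far from the algebraic numbers of degree at most `D` and
height at most `H`: every such algebraic number, real or not, is at distance more than
`exp (-C (log H) ^ 26)` -/
def far (D : ℕ) (C : ℝ) (H : ℕ) : Set (Fin 9) :=
  {i | ∀ α : ℂ, IsAlg D H α → Real.exp (-(C * Real.log H ^ 26)) < ‖(nine i : ℂ) - α‖}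

open Pool.Agent.H12 Pool.Agent.Y928.QN in
/-- **Five of the nine numbers at every scale.** -/
theorem result : ∀ D : ℕ, ∃ C : ℝ, 0 < C ∧ ∀ H : ℕ, 3 ≤ H → 5 ≤ (far D C H).ncard := by
  intro D
  obtain ⟨c1, p1, h1⟩ := ex50 D
  obtain ⟨c2, p2, h2⟩ := ex51 D
  obtain ⟨c3, p3, h3⟩ := ex53 D
  obtain ⟨c4, p4, h4⟩ := ex7 D 1 one_ne_zero (by norm_num)
  obtain ⟨c5, p5, h5⟩ := ex7 D (-1) (by norm_num) (by norm_num)
  obtain ⟨c6, p6, h6⟩ := ex478 D
  obtain ⟨c7, p7, h7⟩ := ex256 D
  obtain ⟨c8, p8, h8⟩ := exFour D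
  refine ⟨c1 + c2 + c3 + c4 + c5 + c6 + c7 + c8, by positivity, fun H hH => ?_⟩
  set C := c1 + c2 + c3 + c4 + c5 + c6 + c7 + c8 with hC
  classical
  -- the near indices
  have hnear : ∀ i : Fin 9, i ∉ far D C H → Pool.Agent.H12.Near D H (er C H) (nine i) := by
    intro i hi
    have hi' : ¬ ∀ α : ℂ, IsAlg D H α →
        Real.exp (-(C * Real.log H ^ 26)) < ‖(nine i : ℂ) - α‖ := hi
    push Not at hi'
    obtain ⟨α, a1, a2⟩ := hi'
    exact ⟨α, a1, a2⟩
  have n0 : nine 0 = Real.pi + Real.exp 1 := rfl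
  have n1 : nine 1 = Real.pi - Real.exp 1 := rfl
  have n2 : nine 2 = Real.pi * Real.exp 1 := rfl
  have n3 : nine 3 = Real.pi / Real.exp 1 := rfl
  have n4 : nine 4 = Real.pi ^ Real.pi := rfl
  have n5 : nine 5 = Real.exp (Real.exp 1) := by
    change Real.exp 1 ^ Real.exp 1 = _
    rw [Real.exp_one_rpow]
  have n6 : nine 6 = Real.pi ^ Real.exp 1 := rfl
  have n7 : nine 7 = Real.pi ^ Real.sqrt 2 := rfl
  have n8 : nine 8 = Real.exp (Real.pi ^ 2) := by
    change Real.exp 1 ^ (Real.pi ^ 2) = _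
    rw [Real.exp_one_rpow]
  have N0 := hnear 0
  have N1 := hnear 1
  have N2 := hnear 2
  have N3 := hnear 3
  have N4 := hnear 4
  have N5 := hnear 5
  have N6 := hnear 6
  have N7 := hnear 7
  have N8 := hnear 8
  rw [n0] at N0
  rw [n1] at N1
  rw [n2] at N2
  rw [n3] at N3
  rw [n4] at N4
  rw [n5] at N5
  rw [n6] at N6
  rw [n7] at N7
  rw [n8] at N8
  have f0 : 0 ∉ far D C H → ∃ α : ℂ, AlgHt D H α ∧
      ‖Pool.Agent.Results.MP_a2f59b_nt.EveryScale.four (Real.pi : ℂ) 0 - α‖ ≤ er C H := by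
    intro h
    obtain ⟨α, a1, a2⟩ := N0 h
    refine ⟨α, a1, ?_⟩
    change ‖((Real.pi : ℂ) + ((Real.exp 1 : ℝ) : ℂ)) - α‖ ≤ er C H
    rwa [← Complex.ofReal_add]
  have f1 : 1 ∉ far D C H → ∃ α : ℂ, AlgHt D H α ∧
      ‖Pool.Agent.Results.MP_a2f59b_nt.EveryScale.four (Real.pi : ℂ) 1 - α‖ ≤ er C H := by
    intro h
    obtain ⟨α, a1, a2⟩ := N1 h
    refine ⟨α, a1, ?_⟩
    change ‖((Real.pi : ℂ) - ((Real.exp 1 : ℝ) : ℂ)) - α‖ ≤ er C H
    rwa [← Complex.ofReal_sub]
  have f2 : 2 ∉ far D C H → ∃ α : ℂ, AlgHt D H α ∧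
      ‖Pool.Agent.Results.MP_a2f59b_nt.EveryScale.four (Real.pi : ℂ) 2 - α‖ ≤ er C H := by
    intro h
    obtain ⟨α, a1, a2⟩ := N2 h
    refine ⟨α, a1, ?_⟩
    change ‖((Real.pi : ℂ) * ((Real.exp 1 : ℝ) : ℂ)) - α‖ ≤ er C H
    rwa [← Complex.ofReal_mul]
  have f3 : 3 ∉ far D C H → ∃ α : ℂ, AlgHt D H α ∧
      ‖Pool.Agent.Results.MP_a2f59b_nt.EveryScale.four (Real.pi : ℂ) 3 - α‖ ≤ er C H := by
    intro h
    obtain ⟨α, a1, a2⟩ := N3 h
    refine ⟨α, a1, ?_⟩
    change ‖((Real.pi : ℂ) / ((Real.exp 1 : ℝ) : ℂ)) - α‖ ≤ er C H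
    rwa [← Complex.ofReal_div]
  have g := h8 C (by linarith) H hH
  have e01 : 0 ∉ far D C H → 1 ∉ far D C H → False := fun a b => by
    have := g 0 1 (f0 a) (f1 b)
    exact absurd this (by decide)
  have e02 : 0 ∉ far D C H → 2 ∉ far D C H → False := fun a b => by
    have := g 0 2 (f0 a) (f2 b)
    exact absurd this (by decide)
  have e03 : 0 ∉ far D C H → 3 ∉ far D C H → False := fun a b => by
    have := g 0 3 (f0 a) (f3 b)
    exact absurd this (by decide)
  have e12 : 1 ∉ far D C H → 2 ∉ far D C H → False := fun a b => by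
    have := g 1 2 (f1 a) (f2 b)
    exact absurd this (by decide)
  have e13 : 1 ∉ far D C H → 3 ∉ far D C H → False := fun a b => by
    have := g 1 3 (f1 a) (f3 b)
    exact absurd this (by decide)
  have e23 : 2 ∉ far D C H → 3 ∉ far D C H → False := fun a b => by
    have := g 2 3 (f2 a) (f3 b)
    exact absurd this (by decide)
  have e50 : 5 ∉ far D C H → 0 ∉ far D C H → False := fun a b =>
    h1 C (by linarith) H hH (N5 a) (N0 b)
  have e51 : 5 ∉ far D C H → 1 ∉ far D C H → False := fun a b =>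
    h2 C (by linarith) H hH (N5 a) (N1 b)
  have e53 : 5 ∉ far D C H → 3 ∉ far D C H → False := fun a b =>
    h3 C (by linarith) H hH (N5 a) (N3 b)
  have e72 : 7 ∉ far D C H → 2 ∉ far D C H → False := fun a b => by
    refine h4 C (by linarith) H hH (N7 a) ?_
    simpa using N2 b
  have e73 : 7 ∉ far D C H → 3 ∉ far D C H → False := fun a b => by
    refine h5 C (by linarith) H hH (N7 a) ?_
    have := N3 b
    rw [div_eq_mul_inv, ← Real.exp_neg] at this
    simpa using this
  have e478 : 4 ∉ far D C H → 7 ∉ far D C H → 8 ∉ far D C H → False := fun a b c =>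
    h6 C (by linarith) H hH (N4 a) (N7 b) (N8 c)
  have e256 : 2 ∉ far D C H → 5 ∉ far D C H → 6 ∉ far D C H → False := fun a b c =>
    h7 C (by linarith) H hH (N2 a) (N5 b) (N6 c)
  have hcard : (far D C H).ncard = ∑ i : Fin 9, if i ∈ far D C H then 1 else 0 := by
    have e1 : far D C H = ↑(Finset.univ.filter (fun i : Fin 9 => i ∈ far D C H)) := by
      ext i
      simp
    conv_lhs => rw [e1]
    rw [Set.ncard_coe_finset, Finset.card_filter]
  rw [hcard]
  clear hcard hnear f0 f1 f2 f3 g N0 N1 N2 N3 N4 N5 N6 N7 N8 h1 h2 h3 h4 h5 h6 h7 h8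
  generalize far D C H = S at *
  have key : ∀ a : Fin 9, (if a ∈ S then 1 else 0) = 1 - (if a ∉ S then 1 else 0) := by
    intro a
    by_cases h : a ∈ S <;> simp [h]
  have le1 : ∀ a : Fin 9, (if a ∉ S then 1 else 0) ≤ 1 := by
    intro a
    split_ifs <;> norm_num
  have two : ∀ a b : Fin 9, (a ∉ S → b ∉ S → False) →
      (if a ∉ S then 1 else 0) + (if b ∉ S then 1 else 0) ≤ 1 := by
    intro a b h
    by_cases ha : a ∈ S
    · simp only [ha, not_true_eq_false, if_false, zero_add]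
      split_ifs <;> norm_num
    · by_cases hb : b ∈ S
      · simp [ha, hb]
      · exact absurd (h ha hb) id
  have three : ∀ a b c : Fin 9, (a ∉ S → b ∉ S → c ∉ S → False) →
      (if a ∉ S then 1 else 0) + (if b ∉ S then 1 else 0) + (if c ∉ S then 1 else 0) ≤ 2 := by
    intro a b c h
    by_cases ha : a ∈ S
    · have := le1 b
      have := le1 c
      simp only [ha, not_true_eq_false, if_false, zero_add]
      omega
    · have := two b c (h ha)
      have := le1 a
      omega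
  simp only [key]
  have t01 := two 0 1 e01
  have t02 := two 0 2 e02
  have t03 := two 0 3 e03
  have t12 := two 1 2 e12
  have t13 := two 1 3 e13
  have t23 := two 2 3 e23
  have t50 := two 5 0 e50
  have t51 := two 5 1 e51
  have t53 := two 5 3 e53
  have t72 := two 7 2 e72
  have t73 := two 7 3 e73
  have t478 := three 4 7 8 e478
  have t256 := three 2 5 6 e256
  have l0 := le1 0
  have l1 := le1 1
  have l2 := le1 2
  have l3 := le1 3
  have l4 := le1 4
  have l5 := le1 5
  have l6 := le1 6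
  have l7 := le1 7
  have l8 := le1 8
  clear e01 e02 e03 e12 e13 e23 e50 e51 e53 e72 e73 e478 e256 two three le1 key
  have hsum : (∑ x : Fin 9, (1 - if x ∉ S then 1 else 0)) =
    (1 - if (0 : Fin 9) ∉ S then 1 else 0) + ((1 - if (1 : Fin 9) ∉ S then 1 else 0) +
    ((1 - if (2 : Fin 9) ∉ S then 1 else 0) + ((1 - if (3 : Fin 9) ∉ S then 1 else 0) +
    ((1 - if (4 : Fin 9) ∉ S then 1 else 0) + ((1 - if (5 : Fin 9) ∉ S then 1 else 0) +
    ((1 - if (6 : Fin 9) ∉ S then 1 else 0) + ((1 - if (7 : Fin 9) ∉ S then 1 else 0) +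
    ((1 - if (8 : Fin 9) ∉ S then 1 else 0) + 0)))))))) := by
    simp only [Fin.sum_univ_succ, Fin.sum_univ_zero]
    rfl
  rw [hsum]
  clear hsum
  generalize (if (0 : Fin 9) ∉ S then 1 else 0) = x0 at *
  generalize (if (1 : Fin 9) ∉ S then 1 else 0) = x1 at *
  generalize (if (2 : Fin 9) ∉ S then 1 else 0) = x2 at *
  generalize (if (3 : Fin 9) ∉ S then 1 else 0) = x3 at *
  generalize (if (4 : Fin 9) ∉ S then 1 else 0) = x4 at *
  generalize (if (5 : Fin 9) ∉ S then 1 else 0) = x5 at *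
  generalize (if (6 : Fin 9) ∉ S then 1 else 0) = x6 at *
  generalize (if (7 : Fin 9) ∉ S then 1 else 0) = x7 at *
  generalize (if (8 : Fin 9) ∉ S then 1 else 0) = x8 at *
  have hS : x0 + x1 + x2 + x3 ≤ 1 := by omega
  have hx2 : x2 = 0 ∨ x2 = 1 := by omega
  rcases hx2 with hx2 | hx2
  · have h5 : x0 + x1 + x3 + x5 ≤ 1 := by omega
    omega
  · omega

end Pool.Agent.Results.MP_a2f59b_nt.FiveAtEveryScale
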